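import Mathlib

/-!
# The divisor bound
-/

namespace Pool.Agent.Work.MP_e0aece_nt

open Real

/-- The divisor bound `d(n) ≤ C n ^ δ`. -/
theorem exists_divisor_bound (δ : ℝ) (hδ : 0 < δ) :
    ∃ C : ℝ, 0 < C ∧ ∀ n : ℕ, 1 ≤ n → (n.divisors.card : ℝ) ≤ C * (n : ℝ) ^ δ := by
  have hlog2 : 0 < Real.log 2 := Real.log_pos (by norm_num)
  set C' : ℝ := 1 + 1 / (δ * Real.log 2) with hC'
  have hC'1 : 1 ≤ C' := by
    rw [hC']
    have : 0 ≤ 1 / (δ * Real.log 2) := by positivity
    linarith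
  set P0 : ℕ := ⌈(2 : ℝ) ^ (1 / δ)⌉₊ with hP0
  have hlocal : ∀ p e : ℕ, 2 ≤ p → ((e : ℝ) + 1) ≤ (if p < P0 then C' else 1) * ((p : ℝ) ^ e) ^ δ := by
    intro p e hp
    have hp0 : (0 : ℝ) < p := by positivity
    have hpe : ((p : ℝ) ^ e) ^ δ = ((p : ℝ) ^ δ) ^ e := by
      rw [← Real.rpow_natCast, ← Real.rpow_natCast, ← Real.rpow_mul hp0.le,
        ← Real.rpow_mul hp0.le, mul_comm]
    rw [hpe]
    split_ifs with h
    · -- small primes
      have h1 : (2 : ℝ) ^ δ ≤ (p : ℝ) ^ δ := by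
        apply Real.rpow_le_rpow (by norm_num) (by exact_mod_cast hp) hδ.le
      have h2 : 1 + (e : ℝ) * (δ * Real.log 2) ≤ ((2 : ℝ) ^ δ) ^ e := by
        have h3 : ((2 : ℝ) ^ δ) ^ e = Real.exp ((e : ℝ) * (δ * Real.log 2)) := by
          rw [Real.rpow_def_of_pos (by norm_num), ← Real.exp_nat_mul]
          ring_nf
        rw [h3]
        have := Real.add_one_le_exp ((e : ℝ) * (δ * Real.log 2))
        linarith
      have h4 : ((2 : ℝ) ^ δ) ^ e ≤ ((p : ℝ) ^ δ) ^ e := by
        gcongr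
      have h5 : (e : ℝ) + 1 ≤ C' * (1 + (e : ℝ) * (δ * Real.log 2)) := by
        rw [hC']
        have h6 : (1 + 1 / (δ * Real.log 2)) * (1 + (e : ℝ) * (δ * Real.log 2))
            = 1 + (e : ℝ) * (δ * Real.log 2) + 1 / (δ * Real.log 2) + e := by
          field_simp
          ring
        rw [h6]
        have h7 : 0 ≤ (e : ℝ) * (δ * Real.log 2) := by positivity
        have h8 : 0 ≤ 1 / (δ * Real.log 2) := by positivity
        linarith
      calc (e : ℝ) + 1 ≤ C' * (1 + (e : ℝ) * (δ * Real.log 2)) := h5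
        _ ≤ C' * ((p : ℝ) ^ δ) ^ e := by
          have := h2.trans h4
          gcongr
    · -- large primes
      have h1 : (2 : ℝ) ^ (1 / δ) ≤ p := by
        have h2 : (2 : ℝ) ^ (1 / δ) ≤ P0 := Nat.le_ceil _
        have h3 : (P0 : ℝ) ≤ p := by exact_mod_cast (not_lt.mp h)
        exact h2.trans h3
      have h2 : (2 : ℝ) ≤ (p : ℝ) ^ δ := by
        have h3 : ((2 : ℝ) ^ (1 / δ)) ^ δ ≤ (p : ℝ) ^ δ :=
          Real.rpow_le_rpow (by positivity) h1 hδ.le
        rw [← Real.rpow_mul (by norm_num), one_div, inv_mul_cancel₀ hδ.ne', Real.rpow_one] at h3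
        exact h3
      have h3 : (2 : ℝ) ^ e ≤ ((p : ℝ) ^ δ) ^ e := by gcongr
      have h4 : (e : ℝ) + 1 ≤ (2 : ℝ) ^ e := by
        have := Nat.lt_two_pow_self (n := e)
        exact_mod_cast this
      rw [one_mul]
      exact h4.trans h3
  refine ⟨C' ^ P0, by positivity, fun n hn => ?_⟩
  have hn0 : n ≠ 0 := by omega
  rw [Nat.card_divisors hn0]
  push_cast
  have h1 : ∏ p ∈ n.primeFactors, ((n.factorization p : ℝ) + 1)
      ≤ ∏ p ∈ n.primeFactors, ((if p < P0 then C' else 1) * ((p : ℝ) ^ (n.factorization p)) ^ δ) := by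
    apply Finset.prod_le_prod
    · intro p _; positivity
    · intro p hp
      exact hlocal p _ (Nat.prime_of_mem_primeFactors hp).two_le
  refine h1.trans ?_
  rw [Finset.prod_mul_distrib]
  have h2 : ∏ p ∈ n.primeFactors, ((p : ℝ) ^ (n.factorization p)) ^ δ = (n : ℝ) ^ δ := by
    rw [Real.finset_prod_rpow]
    · congr 1
      have := Nat.prod_factorization_pow_eq_self hn0
      rw [Finsupp.prod, Nat.support_factorization] at this
      exact_mod_cast this
    · intro p _; positivity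
  rw [h2]
  have h3 : ∏ p ∈ n.primeFactors, (if p < P0 then C' else 1) ≤ C' ^ P0 := by
    rw [Finset.prod_ite, Finset.prod_const_one, mul_one, Finset.prod_const]
    apply pow_le_pow_right₀ hC'1
    calc (n.primeFactors.filter (fun p => p < P0)).card ≤ (Finset.range P0).card := by
          apply Finset.card_le_card
          intro p hp
          rw [Finset.mem_filter] at hp
          exact Finset.mem_range.mpr hp.2
      _ = P0 := Finset.card_range _
  gcongr

end Pool.Agent.Work.MP_e0aece_nt
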