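import Mathlib

/-!
# Reliable sets of strong pseudoprime witnesses: definitions
-/

namespace Pool.Agent.Work.MP_e0aece_nt

/-- `n` passes the strong probable prime test to base `a`: writing `n - 1 = 2 ^ u * t` with `t` odd,
either `a ^ t ≡ 1 (mod n)` or `a ^ (2 ^ i * t) ≡ -1 (mod n)` for some `i < u`. -/
def PassesStrongTest (n : ℕ) (a : ℤ) : Prop :=
  ∃ u t : ℕ, Odd t ∧ n - 1 = 2 ^ u * t ∧
    (a ^ t ≡ 1 [ZMOD (n : ℤ)] ∨ ∃ i < u, a ^ (2 ^ i * t) ≡ -1 [ZMOD (n : ℤ)])

/-- `a` is a witness for the odd composite number `n`: `n` does not divide `a` and `n` does not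
pass the strong test to base `a`. -/
def IsWitness (n : ℕ) (a : ℤ) : Prop := ¬ ((n : ℤ) ∣ a) ∧ ¬ PassesStrongTest n a

/-- `W` is a reliable set for `x`: every odd composite `n ≤ x` has a witness in `W`. -/
def IsReliable (W : Finset ℤ) (x : ℝ) : Prop :=
  ∀ n : ℕ, Odd n → 1 < n → ¬ n.Prime → (n : ℝ) ≤ x → ∃ a ∈ W, IsWitness n a

/-- `R x` is the least cardinality of a reliable set for `x`. -/
noncomputable def R (x : ℝ) : ℕ := sInf {k : ℕ | ∃ W : Finset ℤ, W.card = k ∧ IsReliable W x}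

/-- `n` is a Carmichael number: `n` is composite and `a ^ (n - 1) ≡ 1 (mod n)` for every `a`
coprime to `n`. -/
def IsCarmichael (n : ℕ) : Prop :=
  1 < n ∧ ¬ n.Prime ∧ ∀ a : ℕ, a.Coprime n → a ^ (n - 1) ≡ 1 [MOD n]

/-- `c` is a colouring (with `K` colours) of the primes such that no Carmichael number `n ≤ x`,
all of whose prime factors `p` have `2`-adic valuation `v_2 (p - 1) = v`, has all its prime factors
of one colour. -/
def IsProperColoring (v : ℕ) (x : ℝ) (K : ℕ) (c : ℕ → Fin K) : Prop :=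
  ∀ n : ℕ, IsCarmichael n → (n : ℝ) ≤ x →
    (∀ p : ℕ, p.Prime → p ∣ n → padicValNat 2 (p - 1) = v) →
    ∃ p q : ℕ, p.Prime ∧ p ∣ n ∧ q.Prime ∧ q ∣ n ∧ c p ≠ c q

/-- The chromatic number of the hypergraph whose vertices are the primes `p` and whose hyperedges
are the sets of prime factors of the Carmichael numbers `n ≤ x` all of whose prime factors satisfy
`v_2 (p - 1) = v`. -/
noncomputable def chi (v : ℕ) (x : ℝ) : ℕ :=
  sInf {K : ℕ | ∃ c : ℕ → Fin K, IsProperColoring v x K c}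

/-- `M x` is the maximum over `v ≥ 1` of `⌈log_{v+2} (chi v x)⌉`. -/
noncomputable def M (x : ℝ) : ℕ :=
  sSup {m : ℕ | ∃ v : ℕ, 1 ≤ v ∧ m = Nat.clog (v + 2) (chi v x)}

end Pool.Agent.Work.MP_e0aece_nt
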