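import Pool.Agent.Work.MP_e0aece_nt.Bd.B03

/-!
# `R x` is determined up to one by the chromatic numbers of Carmichael hypergraphs
-/

namespace Pool.Agent.Work.MP_e0aece_nt

open Nat

lemma IsCarmichael.exists_two {n : ℕ} (h : IsCarmichael n) :
    ∃ p q : ℕ, p.Prime ∧ p ∣ n ∧ q.Prime ∧ q ∣ n ∧ p ≠ q := by
  have h3 := h.three_le_card
  obtain ⟨p, hp, q, hq, hpq⟩ := Finset.one_lt_card.mp (show 1 < n.primeFactors.card by omega)
  exact ⟨p, q, Nat.prime_of_mem_primeFactors hp, Nat.dvd_of_mem_primeFactors hp,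
    Nat.prime_of_mem_primeFactors hq, Nat.dvd_of_mem_primeFactors hq, hpq⟩

/-- Proper colourings exist. -/
lemma exists_proper (v : ℕ) (x : ℝ) : ∃ K, ∃ c : ℕ → Fin K, IsProperColoring v x K c := by
  refine ⟨⌊x⌋₊ + 1, fun p => ⟨p % (⌊x⌋₊ + 1), Nat.mod_lt _ (by omega)⟩, ?_⟩
  intro n hn hnx hv
  obtain ⟨p, q, hp, hpn, hq, hqn, hpq⟩ := hn.exists_two
  refine ⟨p, q, hp, hpn, hq, hqn, ?_⟩
  intro h
  have hnN : n ≤ ⌊x⌋₊ := Nat.le_floor hnx
  have hn1 := hn.1
  have h1 : p ≤ ⌊x⌋₊ := (Nat.le_of_dvd (by omega) hpn).trans hnN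
  have h2 : q ≤ ⌊x⌋₊ := (Nat.le_of_dvd (by omega) hqn).trans hnN
  have h3 := Fin.ext_iff.mp h
  simp only at h3
  rw [Nat.mod_eq_of_lt (by omega), Nat.mod_eq_of_lt (by omega)] at h3
  exact hpq h3

lemma chi_spec (v : ℕ) (x : ℝ) : ∃ c : ℕ → Fin (chi v x), IsProperColoring v x (chi v x) c :=
  Nat.sInf_mem (s := {K : ℕ | ∃ c : ℕ → Fin K, IsProperColoring v x K c}) (exists_proper v x)

lemma chi_le {v : ℕ} {x : ℝ} {K : ℕ} (c : ℕ → Fin K) (h : IsProperColoring v x K c) :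
    chi v x ≤ K := Nat.sInf_le ⟨c, h⟩

/-- A reliable set gives a proper colouring. -/
theorem chi_le_of_reliable {x : ℝ} {W : Finset ℤ} (hW : IsReliable W x) {v : ℕ} (hv : 1 ≤ v) :
    chi v x ≤ (v + 2) ^ W.card := by
  classical
  -- the coloring by symbol vectors
  let e : (W → Fin (v + 2)) ≃ Fin ((v + 2) ^ W.card) :=
    Fintype.equivFinOfCardEq (by simp)
  let f : ℕ → (W → Fin (v + 2)) := fun p a => ⟨min (symb p a) (v + 1), by omega⟩
  apply chi_le (fun p => e (f p))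
  intro n hn hnx hval
  by_contra hcon
  push Not at hcon
  have hodd := hn.odd
  have hsq := hn.squarefree
  obtain ⟨a, haW, hnd, hnp⟩ := hW n hodd hn.1 hn.2.1 hnx
  have hsame : ∀ p q : ℕ, p.Prime → p ∣ n → q.Prime → q ∣ n →
      min (symb p a) (v + 1) = min (symb q a) (v + 1) := by
    intro p q hp hpn hq hqn
    have h1 := e.injective (hcon p q hp hpn hq hqn)
    have h2 := congrFun h1 ⟨a, haW⟩
    exact Fin.ext_iff.mp h2
  have hle : ∀ p : ℕ, p.Prime → p ∣ n → symb p a ≤ v + 1 := by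
    intro p hp hpn
    have := Fact.mk hp
    by_cases hd : (p : ℤ) ∣ a
    · rw [symb_eq_zero_iff.mpr hd]; omega
    · rw [symb_of_not_dvd hd]
      have hne : (a : ZMod p) ≠ 0 := by
        intro h0
        exact hd ((ZMod.intCast_zmod_eq_zero_iff_dvd a p).mp h0)
      have h1 : orderOf (a : ZMod p) ∣ p - 1 :=
        orderOf_dvd_of_pow_eq_one (ZMod.pow_card_sub_one_eq_one hne)
      have h2 : p - 1 ≠ 0 := by have := hp.two_le; omega
      have h3 : padicValNat 2 (orderOf (a : ZMod p)) ≤ padicValNat 2 (p - 1) := by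
        rw [← padicValNat_dvd_iff_le h2]
        exact pow_padicValNat_dvd.trans h1
      rw [hval p hp hpn] at h3
      omega
  have hsame' : ∀ p q : ℕ, p.Prime → p ∣ n → q.Prime → q ∣ n → symb p a = symb q a := by
    intro p q hp hpn hq hqn
    have h1 := hsame p q hp hpn hq hqn
    have h2 := hle p hp hpn
    have h3 := hle q hq hqn
    rwa [min_eq_left h2, min_eq_left h3] at h1
  obtain ⟨p0, hp0, hp0n⟩ := Nat.exists_prime_and_dvd (show n ≠ 1 by have := hn.1; omega)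
  rcases Nat.eq_zero_or_pos (symb p0 a) with h0 | h0
  · apply hnd
    apply int_dvd_of_squarefree hsq
    intro p hp hpn
    rw [← symb_eq_zero_iff, hsame' p p0 hp hpn hp0 hp0n, h0]
  · apply hnp
    apply passes_of_symb_eq hn.1 hodd hsq (fun p hp hpn => hn.sub_one_dvd hp hpn)
      (e := symb p0 a - 1)
    intro p hp hpn
    rw [hsame' p p0 hp hpn hp0 hp0n]
    omega

/-- Reliable sets exist and `R x` is attained. -/
theorem R_attained (x : ℝ) : ∃ W : Finset ℤ, W.card = R x ∧ IsReliable W x := by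
  have hne : {k : ℕ | ∃ W : Finset ℤ, W.card = k ∧ IsReliable W x}.Nonempty := by
    -- use injective colouring
    obtain ⟨W, -, hW⟩ := exists_reliable_of_colorings x (⌊x⌋₊ + 1) (by
      intro v hv
      refine ⟨fun p j => if (j : ℕ) = p then 1 else 0, ?_⟩
      intro n hn hnx hval
      obtain ⟨p, q, hp, hpn, hq, hqn, hpq⟩ := hn.exists_two
      refine ⟨p, q, hp, hpn, hq, hqn, ?_⟩
      intro h
      have hnN : n ≤ ⌊x⌋₊ := Nat.le_floor hnx
      have hn1 := hn.1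
      have h1 : p ≤ ⌊x⌋₊ := (Nat.le_of_dvd (by omega) hpn).trans hnN
      have h2 := congrFun h (⟨p, by omega⟩ : Fin (⌊x⌋₊ + 1))
      simp only [if_true] at h2
      rw [if_neg (by simpa using hpq)] at h2
      exact one_ne_zero h2)
    exact ⟨W.card, W, rfl, hW⟩
  exact Nat.sInf_mem hne

/-- Upper bound: if `clog (v+2) (chi v x) ≤ m` for all `v ≥ 1` then `R x ≤ m + 1`. -/
theorem R_le_of_clog_le {x : ℝ} {m : ℕ}
    (h : ∀ v : ℕ, 1 ≤ v → Nat.clog (v + 2) (chi v x) ≤ m) : R x ≤ m + 1 := by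
  obtain ⟨W, hW, hrel⟩ := exists_reliable_of_colorings x m (by
    intro v hv
    obtain ⟨c, hc⟩ := chi_spec v x
    have h1 : chi v x ≤ (v + 2) ^ m :=
      (Nat.clog_le_iff_le_pow (by omega)).mp (h v hv)
    let e : Fin ((v + 2) ^ m) ≃ (Fin m → Fin (v + 2)) := finFunctionFinEquiv.symm
    refine ⟨fun p => e (Fin.castLE h1 (c p)), ?_⟩
    intro n hn hnx hval
    obtain ⟨p, q, hp, hpn, hq, hqn, hpq⟩ := hc n hn hnx hval
    refine ⟨p, q, hp, hpn, hq, hqn, ?_⟩
    intro he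
    apply hpq
    exact Fin.castLE_injective h1 (e.injective he))
  have h2 : R x ≤ W.card := Nat.sInf_le (show W.card ∈ _ from ⟨W, rfl, hrel⟩)
  exact h2.trans hW

theorem clog_le_R {x : ℝ} {v : ℕ} (hv : 1 ≤ v) : Nat.clog (v + 2) (chi v x) ≤ R x := by
  obtain ⟨W, hW, hrel⟩ := R_attained x
  rw [Nat.clog_le_iff_le_pow (by omega), ← hW]
  exact chi_le_of_reliable hrel hv

theorem sandwich (x : ℝ) : M x ≤ R x ∧ R x ≤ M x + 1 := by
  have hbdd : BddAbove {m : ℕ | ∃ v : ℕ, 1 ≤ v ∧ m = Nat.clog (v + 2) (chi v x)} := by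
    refine ⟨R x, ?_⟩
    rintro m ⟨v, hv, rfl⟩
    exact clog_le_R hv
  constructor
  · apply csSup_le
    · exact ⟨_, 1, le_rfl, rfl⟩
    · rintro m ⟨v, hv, rfl⟩
      exact clog_le_R hv
  · apply R_le_of_clog_le
    intro v hv
    exact le_csSup hbdd ⟨v, hv, rfl⟩

end Pool.Agent.Work.MP_e0aece_nt
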