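import Pool.Agent.Work.MP_e0aece_nt.Bd.B01

/-!
# The upper bound `R(x) ≤ (1/(10 log 3) + o(1)) log x`: assembly
-/

namespace Pool.Agent.Work.MP_e0aece_nt

open Finset Filter

open Classical in
/-- Colouring of the localised family. -/
lemma exists_local_colouring {x b Z : ℝ} (hb : 1 ≤ b) (hx : b ^ 10 = x) (hZ : 1 ≤ Z)
    (hZ3 : 35 ≤ Z ^ 3)
    (hT1 : ∀ n : ℕ, 1 ≤ n → (n : ℝ) ≤ x → ((n.divisors.card : ℕ) : ℝ) ≤ Z)
    (hT2 : ∀ n : ℕ, 1 ≤ n → (n : ℝ) ≤ x ^ 2 * Z → ((n.divisors.card : ℕ) : ℝ) ≤ Z)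
    (K : ℕ) (hK : 2 * (b * Z ^ 8) ≤ K) :
    ∃ c : ℕ → Fin K, ∀ n : ℕ, InFam x b Z n →
      ∃ p q : ℕ, p.Prime ∧ p ∣ n ∧ q.Prime ∧ q ∣ n ∧ c p ≠ c q := by
  set V : Finset ℕ := Finset.range (⌊x⌋₊ + 1) with hV
  set N : Finset ℕ := V.filter (fun n => InFam x b Z n) with hN
  set E : Finset (Finset ℕ) := N.image Nat.primeFactors with hE
  set β : ℝ := b * Z ^ 8 with hβ
  have hb0 : 0 < b := by linarith
  have hβ0 : 0 < β := by rw [hβ]; positivity
  have hK0 : 0 < K := by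
    have : (0 : ℝ) < K := lt_of_lt_of_le (by positivity) hK
    exact_mod_cast this
  obtain ⟨c, hc⟩ := exists_colouring V E K hK0 β hβ0 (by
    intro e he
    obtain ⟨n, hn, rfl⟩ := Finset.mem_image.mp he
    have := (Finset.mem_filter.mp hn).2.1.three_le_card
    omega) (by
    intro e he
    obtain ⟨n, hn, rfl⟩ := Finset.mem_image.mp he
    rw [hN, Finset.mem_filter, hV, Finset.mem_range] at hn
    intro p hp
    have h1 := Nat.le_of_mem_primeFactors hp
    rw [hV, Finset.mem_range]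
    omega) (by
    intro p hpV
    suffices hgoal : β + ∑ e ∈ E with p ∈ e, (β ^ (e.card - 2))⁻¹ ≤ (K : ℝ) by
      convert hgoal
    have hsum : ∑ e ∈ E with p ∈ e, (β ^ (e.card - 2))⁻¹
        = ∑ r ∈ Finset.Icc 3 9, ∑ e ∈ (E.filter (fun e => p ∈ e)).filter (fun e => e.card = r),
          (β ^ (e.card - 2))⁻¹ := by
      rw [Finset.sum_fiberwise_of_maps_to]
      intro e he
      rw [Finset.mem_filter] at he
      obtain ⟨n, hn, rfl⟩ := Finset.mem_image.mp he.1
      have hf := (Finset.mem_filter.mp hn).2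
      rw [Finset.mem_Icc]
      exact ⟨hf.1.three_le_card, hf.card_le hb0 hx⟩
    rw [hsum]
    have hterm : ∀ r ∈ Finset.Icc 3 9,
        ∑ e ∈ (E.filter (fun e => p ∈ e)).filter (fun e => e.card = r), (β ^ (e.card - 2))⁻¹
          ≤ β / 7 := by
      intro r hr
      rw [Finset.mem_Icc] at hr
      have h1 : ∑ e ∈ (E.filter (fun e => p ∈ e)).filter (fun e => e.card = r),
          (β ^ (e.card - 2))⁻¹ = (((E.filter (fun e => p ∈ e)).filter
            (fun e => e.card = r)).card : ℝ) * (β ^ (r - 2))⁻¹ := by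
        rw [← nsmul_eq_mul, ← Finset.sum_const]
        apply Finset.sum_congr rfl
        intro e he
        rw [(Finset.mem_filter.mp he).2]
      rw [h1]
      have h2 : ((E.filter (fun e => p ∈ e)).filter (fun e => e.card = r)).card
          ≤ (N.filter (fun n => p ∈ n.primeFactors ∧ n.primeFactors.card = r)).card := by
        have h3 : (E.filter (fun e => p ∈ e)).filter (fun e => e.card = r)
            ⊆ (N.filter (fun n => p ∈ n.primeFactors ∧ n.primeFactors.card = r)).image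
              Nat.primeFactors := by
          intro e he
          rw [Finset.mem_filter, Finset.mem_filter] at he
          obtain ⟨⟨he1, he2⟩, he3⟩ := he
          obtain ⟨n, hn, rfl⟩ := Finset.mem_image.mp he1
          rw [Finset.mem_image]
          exact ⟨n, by rw [Finset.mem_filter]; exact ⟨hn, he2, he3⟩, rfl⟩
        exact (Finset.card_le_card h3).trans Finset.card_image_le
      have h3 := degree_bound hb hx hZ hT1 hT2 p r hr.1 hr.2
        (N.filter (fun n => p ∈ n.primeFactors ∧ n.primeFactors.card = r)) (by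
          intro n hn
          rw [Finset.mem_filter] at hn
          obtain ⟨hn1, hn2, hn3⟩ := hn
          exact ⟨(Finset.mem_filter.mp hn1).2, Nat.prime_of_mem_primeFactors hn2,
            Nat.dvd_of_mem_primeFactors hn2, hn3⟩)
      have h4 : (((E.filter (fun e => p ∈ e)).filter (fun e => e.card = r)).card : ℝ)
          ≤ 5 * Z ^ 13 * b ^ (r - 1) := by
        have : (((E.filter (fun e => p ∈ e)).filter (fun e => e.card = r)).card : ℝ)
          ≤ ((N.filter (fun n => p ∈ n.primeFactors ∧ n.primeFactors.card = r)).card : ℝ) := by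
          exact_mod_cast h2
        exact this.trans h3
      have h5 : 5 * Z ^ 13 * b ^ (r - 1) ≤ β ^ (r - 1) / 7 := by
        rw [hβ, mul_pow, ← pow_mul]
        have h6 : Z ^ 16 ≤ Z ^ (8 * (r - 1)) := pow_le_pow_right₀ hZ (by omega)
        have h7 : 35 * Z ^ 13 ≤ Z ^ 16 := by
          calc 35 * Z ^ 13 ≤ Z ^ 3 * Z ^ 13 := by gcongr
            _ = Z ^ 16 := by ring
        have h8 : 35 * Z ^ 13 * b ^ (r - 1) ≤ Z ^ (8 * (r - 1)) * b ^ (r - 1) := by
          gcongr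
          exact h7.trans h6
        linarith
      calc (((E.filter (fun e => p ∈ e)).filter (fun e => e.card = r)).card : ℝ)
            * (β ^ (r - 2))⁻¹ ≤ (β ^ (r - 1) / 7) * (β ^ (r - 2))⁻¹ := by
            have := h4.trans h5
            gcongr
        _ = β / 7 := by
            have : β ^ (r - 1) = β ^ (r - 2) * β := by
              rw [← pow_succ]; congr 1; omega
            rw [this]
            field_simp
    have h1 := Finset.sum_le_sum hterm
    rw [Finset.sum_const, nsmul_eq_mul, Nat.card_Icc] at h1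
    norm_num at h1
    linarith)
  refine ⟨c, fun n hn => ?_⟩
  have hmem : n.primeFactors ∈ E := by
    rw [hE, Finset.mem_image]
    refine ⟨n, ?_, rfl⟩
    rw [hN, Finset.mem_filter, hV, Finset.mem_range]
    have := Nat.le_floor hn.2.1
    exact ⟨by omega, hn⟩
  obtain ⟨p, hp, q, hq, hpq⟩ := hc _ hmem
  exact ⟨p, q, Nat.prime_of_mem_primeFactors hp, Nat.dvd_of_mem_primeFactors hp,
    Nat.prime_of_mem_primeFactors hq, Nat.dvd_of_mem_primeFactors hq, hpq⟩

open Classical in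
/-- Colouring of all Carmichael numbers up to `x`. -/
lemma exists_global_colouring {x b Z : ℝ} (hb : 1 ≤ b) (hx : b ^ 10 = x) (hZ : 1 < Z)
    (hZ3 : 35 ≤ Z ^ 3)
    (hT1 : ∀ n : ℕ, 1 ≤ n → (n : ℝ) ≤ x → ((n.divisors.card : ℕ) : ℝ) ≤ Z)
    (hT2 : ∀ n : ℕ, 1 ≤ n → (n : ℝ) ≤ x ^ 2 * Z → ((n.divisors.card : ℕ) : ℝ) ≤ Z)
    (s : ℕ) (hs : Real.log x ≤ s * Real.log Z)
    (K : ℕ) (hK : 2 * (b * Z ^ 8) ≤ K) :
    ∃ c : ℕ → (Fin (⌊b⌋₊ + 1) ⊕ (Fin (s + 1) × Fin K)), ∀ n : ℕ, IsCarmichael n → (n : ℝ) ≤ x →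
      ∃ p q : ℕ, p.Prime ∧ p ∣ n ∧ q.Prime ∧ q ∣ n ∧ c p ≠ c q := by
  obtain ⟨c, hc⟩ := exists_local_colouring hb hx hZ.le hZ3 hT1 hT2 K hK
  have hlogZ : 0 < Real.log Z := Real.log_pos hZ
  have hb0 : 0 < b := by linarith
  refine ⟨fun p => if h : (p : ℝ) ≤ b then Sum.inl ⟨p, by
      have := Nat.le_floor h; omega⟩
    else Sum.inr (⟨min s ⌊Real.log p / Real.log Z⌋₊, by omega⟩, c p), ?_⟩
  intro n hn hnx
  by_contra hcon
  push Not at hcon
  have hn1 := hn.1
  by_cases hsmall : ∃ p : ℕ, p.Prime ∧ p ∣ n ∧ (p : ℝ) ≤ b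
  · obtain ⟨p, hp, hpn, hpb⟩ := hsmall
    have hone : ∀ q : ℕ, q.Prime → q ∣ n → q = p := by
      intro q hq hqn
      have h1 := hcon p q hp hpn hq hqn
      by_cases hqb : (q : ℝ) ≤ b
      · simp only [dif_pos hpb, dif_pos hqb] at h1
        have h2 := Sum.inl.inj h1
        exact (Fin.ext_iff.mp h2).symm
      · simp only [dif_pos hpb, dif_neg hqb] at h1
        exact absurd h1 (by simp)
    obtain ⟨q1, q2, hq1, hq1n, hq2, hq2n, hne⟩ := hn.exists_two
    exact hne ((hone q1 hq1 hq1n).trans (hone q2 hq2 hq2n).symm)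
  · push Not at hsmall
    have hfam : InFam x b Z n := by
      refine ⟨hn, hnx, hsmall, ?_⟩
      intro p q hp hpn hq hqn
      have h1 := hcon p q hp hpn hq hqn
      simp only [dif_neg (not_le.mpr (hsmall p hp hpn)), dif_neg (not_le.mpr (hsmall q hq hqn))] at h1
      have h2 := Sum.inr.inj h1
      have h3 := Fin.ext_iff.mp (Prod.ext_iff.mp h2).1
      simp only at h3
      have hlog : ∀ p : ℕ, p.Prime → p ∣ n → 0 ≤ Real.log p ∧ Real.log p / Real.log Z ≤ s := by
        intro p hp hpn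
        have hp0 : (0 : ℝ) < p := by exact_mod_cast hp.pos
        have hp1 : (1 : ℝ) ≤ p := by exact_mod_cast hp.pos
        refine ⟨Real.log_nonneg hp1, ?_⟩
        rw [div_le_iff₀ hlogZ]
        refine le_trans (Real.log_le_log hp0 ?_) hs
        have h4 : p ≤ n := Nat.le_of_dvd (by omega) hpn
        have h5 : (p : ℝ) ≤ n := by exact_mod_cast h4
        linarith
      have hfl : ∀ p : ℕ, p.Prime → p ∣ n → ⌊Real.log p / Real.log Z⌋₊ ≤ s := by
        intro p hp hpn
        have := hlog p hp hpn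
        exact Nat.floor_le_of_le this.2
      rw [min_eq_right (hfl p hp hpn), min_eq_right (hfl q hq hqn)] at h3
      have hp0 : (0 : ℝ) < p := by exact_mod_cast hp.pos
      have hq0 : (0 : ℝ) < q := by exact_mod_cast hq.pos
      have h4 : Real.log p / Real.log Z < ⌊Real.log p / Real.log Z⌋₊ + 1 := Nat.lt_floor_add_one _
      have h5 : (⌊Real.log q / Real.log Z⌋₊ : ℝ) ≤ Real.log q / Real.log Z :=
        Nat.floor_le (div_nonneg (hlog q hq hqn).1 hlogZ.le)
      rw [h3] at h4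
      have h6 : Real.log p / Real.log Z < Real.log q / Real.log Z + 1 := by linarith
      have h7 : Real.log p < Real.log q + Real.log Z := by
        rw [div_lt_iff₀ hlogZ] at h6
        have : (Real.log q / Real.log Z + 1) * Real.log Z = Real.log q + Real.log Z := by
          field_simp
        linarith
      rw [← Real.log_mul hq0.ne' (by linarith)] at h7
      have h8 := (Real.log_lt_log_iff hp0 (by positivity)).mp h7
      linarith
    obtain ⟨p, q, hp, hpn, hq, hqn, hpq⟩ := hc n hfam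
    have h1 := hcon p q hp hpn hq hqn
    simp only [dif_neg (not_le.mpr (hsmall p hp hpn)), dif_neg (not_le.mpr (hsmall q hq hqn))] at h1
    have h2 := Sum.inr.inj h1
    exact hpq (Prod.ext_iff.mp h2).2

/-- The bound on `R x` for one `x`. -/
lemma R_bound_one {x b Z : ℝ} (hb : 1 ≤ b) (hx : b ^ 10 = x) (hZ : 1 < Z)
    (hZ3 : 35 ≤ Z ^ 3)
    (hT1 : ∀ n : ℕ, 1 ≤ n → (n : ℝ) ≤ x → ((n.divisors.card : ℕ) : ℝ) ≤ Z)
    (hT2 : ∀ n : ℕ, 1 ≤ n → (n : ℝ) ≤ x ^ 2 * Z → ((n.divisors.card : ℕ) : ℝ) ≤ Z)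
    (s : ℕ) (hs : Real.log x ≤ s * Real.log Z) (hsZ : 5 * ((s : ℝ) + 1) ≤ Z) :
    (R x : ℝ) ≤ (Real.log b + 10 * Real.log Z) / Real.log 3 + 2 := by
  set K : ℕ := ⌈2 * (b * Z ^ 8)⌉₊ with hK
  have hb0 : 0 < b := by linarith
  have hZ0 : 0 < Z := by linarith
  obtain ⟨c, hc⟩ := exists_global_colouring hb hx hZ hZ3 hT1 hT2 s hs K (Nat.le_ceil _)
  obtain ⟨A, hA⟩ : ∃ A : ℕ, A = (⌊b⌋₊ + 1) + (s + 1) * K := ⟨_, rfl⟩
  have hcardι : Fintype.card (Fin (⌊b⌋₊ + 1) ⊕ (Fin (s + 1) × Fin K)) = A := by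
    rw [Fintype.card_sum, Fintype.card_prod, Fintype.card_fin, Fintype.card_fin,
      Fintype.card_fin, hA]
  set m := Nat.clog 3 A with hm
  have h1 : A ≤ 3 ^ m := Nat.le_pow_clog (by norm_num) _
  have h2 := R_le_of_colouring (hcardι.trans_le h1) c hc
  have hbZ : 1 ≤ b * Z ^ 8 := one_le_mul_of_one_le_of_one_le hb (one_le_pow₀ hZ.le)
  have hcardle : (A : ℝ) ≤ b * Z ^ 10 := by
    rw [hA]
    push_cast
    have e1 : (⌊b⌋₊ : ℝ) ≤ b := Nat.floor_le hb0.le
    have e2 : (K : ℝ) ≤ 2 * (b * Z ^ 8) + 1 := (Nat.ceil_lt_add_one (by positivity)).le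
    have e3 : (K : ℝ) ≤ 3 * (b * Z ^ 8) := by linarith
    have e4 : b ≤ b * Z ^ 8 := by
      have : 1 ≤ Z ^ 8 := one_le_pow₀ hZ.le
      exact le_mul_of_one_le_right hb0.le this
    calc (⌊b⌋₊ : ℝ) + 1 + ((s : ℝ) + 1) * K
        ≤ b * Z ^ 8 + b * Z ^ 8 + ((s : ℝ) + 1) * (3 * (b * Z ^ 8)) := by
          have : ((s : ℝ) + 1) * K ≤ ((s : ℝ) + 1) * (3 * (b * Z ^ 8)) := by gcongr
          linarith
      _ ≤ (5 * ((s : ℝ) + 1)) * (b * Z ^ 8) := by
          have hs0 : (0 : ℝ) ≤ s := by positivity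
          nlinarith
      _ ≤ Z * (b * Z ^ 8) := by gcongr
      _ = b * Z ^ 9 := by ring
      _ ≤ b * Z ^ 10 := by
          have : Z ^ 9 ≤ Z ^ 10 := pow_le_pow_right₀ hZ.le (by norm_num)
          gcongr
  have hcard1 : 1 < A := by
    rw [hA]
    have hK1 : 1 ≤ K := by
      rw [hK]; exact Nat.one_le_ceil_iff.mpr (by positivity)
    have : 1 * 1 ≤ (s + 1) * K := Nat.mul_le_mul (by omega) hK1
    omega
  have hlog3 : 0 < Real.log 3 := Real.log_pos (by norm_num)
  have h3 : (m : ℝ) ≤ Real.log (A) / Real.log 3 + 1 := by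
    have hm1 : 3 ^ (m - 1) < A := Nat.pow_pred_clog_lt_self (by norm_num) hcard1
    have hmpos : 1 ≤ m := Nat.clog_pos (by norm_num) hcard1
    have h4 : ((3 : ℝ) ^ (m - 1)) < A := by exact_mod_cast hm1
    have h5 := Real.log_lt_log (by positivity) h4
    rw [Real.log_pow, Nat.cast_sub hmpos] at h5
    rw [← sub_le_iff_le_add, le_div_iff₀ hlog3]
    push_cast at h5
    exact h5.le
  have h4 : Real.log (A) ≤ Real.log b + 10 * Real.log Z := by
    have h5 : (0 : ℝ) < A := by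
      have : 0 < A := by omega
      exact_mod_cast this
    have h6 := Real.log_le_log h5 hcardle
    rw [Real.log_mul hb0.ne' (by positivity), Real.log_pow] at h6
    push_cast at h6
    exact h6
  have h5 : (R x : ℝ) ≤ m + 1 := by exact_mod_cast h2
  calc (R x : ℝ) ≤ m + 1 := h5
    _ ≤ Real.log (A) / Real.log 3 + 1 + 1 := by linarith
    _ ≤ (Real.log b + 10 * Real.log Z) / Real.log 3 + 2 := by
      have : Real.log (A) / Real.log 3
          ≤ (Real.log b + 10 * Real.log Z) / Real.log 3 := by gcongr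
      linarith

/-- Main upper bound. -/
theorem upper_bound (ε : ℝ) (hε : 0 < ε) :
    ∀ᶠ x : ℝ in atTop, (R x : ℝ) ≤ (1 / (10 * Real.log 3) + ε) * Real.log x := by
  set δ : ℝ := min (ε / 20) (1 / 10) with hδ
  have hδ0 : 0 < δ := by rw [hδ]; positivity
  have hδε : δ ≤ ε / 20 := min_le_left _ _
  have hδ1 : δ ≤ 1 / 10 := min_le_right _ _
  obtain ⟨C, hC0, hC⟩ := exists_divisor_bound (δ / 6) (by positivity)
  set s : ℕ := ⌈1 / δ⌉₊ with hs
  have hlog3 : 1 < Real.log 3 := by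
    rw [Real.lt_log_iff_exp_lt (by norm_num)]
    have := Real.exp_one_lt_d9
    norm_num at this ⊢
    linarith
  have hlarge : ∀ᶠ x : ℝ in atTop, 1 < x ∧ 35 ≤ (x ^ δ) ^ 3 ∧ C ≤ x ^ (δ / 2) ∧
      5 * ((s : ℝ) + 1) ≤ x ^ δ ∧ 2 ≤ (ε / 2) * Real.log x := by
    have t1 : Tendsto (fun x : ℝ => x ^ δ) atTop atTop := tendsto_rpow_atTop hδ0
    have t2 : Tendsto (fun x : ℝ => x ^ (δ / 2)) atTop atTop := tendsto_rpow_atTop (by positivity)
    have t3 : Tendsto (fun x : ℝ => (ε / 2) * Real.log x) atTop atTop :=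
      Real.tendsto_log_atTop.const_mul_atTop (by positivity)
    filter_upwards [eventually_gt_atTop 1, t1.eventually_ge_atTop 35, t2.eventually_ge_atTop C,
      t1.eventually_ge_atTop (5 * ((s : ℝ) + 1)), t3.eventually_ge_atTop 2] with x h1 h2 h3 h4 h5
    refine ⟨h1, ?_, h3, h4, h5⟩
    calc (35 : ℝ) ≤ x ^ δ := h2
      _ ≤ (x ^ δ) ^ 3 := le_self_pow₀ (by linarith) (by norm_num)
  filter_upwards [hlarge] with x hx
  obtain ⟨hx1, hZ3, hCx, hsZ, hlogx⟩ := hx
  have hx0 : 0 < x := by linarith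
  set b : ℝ := x ^ ((1 : ℝ) / 10) with hb
  set Z : ℝ := x ^ δ with hZ
  have hb1 : 1 ≤ b := Real.one_le_rpow hx1.le (by norm_num)
  have hZ1 : 1 < Z := Real.one_lt_rpow hx1 hδ0
  have hbx : b ^ 10 = x := by
    rw [hb, ← Real.rpow_natCast, ← Real.rpow_mul hx0.le]
    norm_num
  have hZx : Z ≤ x := by
    rw [hZ]
    calc x ^ δ ≤ x ^ (1 : ℝ) := Real.rpow_le_rpow_of_exponent_le hx1.le (by linarith)
      _ = x := Real.rpow_one x
  have hT2 : ∀ n : ℕ, 1 ≤ n → (n : ℝ) ≤ x ^ 2 * Z → ((n.divisors.card : ℕ) : ℝ) ≤ Z := by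
    intro n hn hnx
    have h1 : (n : ℝ) ≤ x ^ 3 := by
      calc (n : ℝ) ≤ x ^ 2 * Z := hnx
        _ ≤ x ^ 2 * x := by gcongr
        _ = x ^ 3 := by ring
    calc ((n.divisors.card : ℕ) : ℝ) ≤ C * (n : ℝ) ^ (δ / 6) := hC n hn
      _ ≤ x ^ (δ / 2) * (x ^ 3) ^ (δ / 6) := by gcongr
      _ = x ^ (δ / 2) * x ^ (δ / 2) := by
        congr 1
        rw [← Real.rpow_natCast, ← Real.rpow_mul hx0.le]
        congr 1
        push_cast; ring
      _ = Z := by
        rw [hZ, ← Real.rpow_add hx0]; congr 1; ring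
  have hT1 : ∀ n : ℕ, 1 ≤ n → (n : ℝ) ≤ x → ((n.divisors.card : ℕ) : ℝ) ≤ Z := by
    intro n hn hnx
    apply hT2 n hn
    calc (n : ℝ) ≤ x := hnx
      _ = x * 1 * 1 := by ring
      _ ≤ x * x * Z := by gcongr
      _ = x ^ 2 * Z := by ring
  have hlogZ : Real.log Z = δ * Real.log x := by rw [hZ, Real.log_rpow hx0]
  have hlogb : Real.log b = (1 / 10) * Real.log x := by rw [hb, Real.log_rpow hx0]
  have hlogx0 : 0 < Real.log x := Real.log_pos hx1
  have hs' : Real.log x ≤ s * Real.log Z := by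
    rw [hlogZ]
    have h1 : 1 / δ ≤ s := Nat.le_ceil _
    calc Real.log x = (1 / δ) * (δ * Real.log x) := by field_simp
      _ ≤ s * (δ * Real.log x) := by gcongr
  have hmain := R_bound_one hb1 hbx hZ1 hZ3 hT1 hT2 s hs' hsZ
  rw [hlogZ, hlogb] at hmain
  have h1 : ((1 / 10) * Real.log x + 10 * (δ * Real.log x)) / Real.log 3
      ≤ (1 / (10 * Real.log 3) + ε / 2) * Real.log x := by
    rw [div_le_iff₀ (by linarith)]
    have h2 : (1 / (10 * Real.log 3) + ε / 2) * Real.log x * Real.log 3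
        = (1 / 10) * Real.log x + (ε / 2) * Real.log x * Real.log 3 := by
      field_simp
    rw [h2]
    have h3 : 10 * (δ * Real.log x) ≤ (ε / 2) * Real.log x := by
      calc 10 * (δ * Real.log x) ≤ 10 * ((ε / 20) * Real.log x) := by gcongr
        _ = (ε / 2) * Real.log x := by ring
    have h4 : (ε / 2) * Real.log x ≤ (ε / 2) * Real.log x * Real.log 3 := by
      apply le_mul_of_one_le_right (by positivity) hlog3.le
    linarith
  calc (R x : ℝ) ≤ _ := hmain
    _ ≤ (1 / (10 * Real.log 3) + ε / 2) * Real.log x + (ε / 2) * Real.log x := by linarith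
    _ = (1 / (10 * Real.log 3) + ε) * Real.log x := by ring

end Pool.Agent.Work.MP_e0aece_nt
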